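import Pool.Agent.Helper99_Eng3.Stmts

/-! # Squad ENG part 3 (MP_da8eb3_al): module OSTD. -/

set_option autoImplicit false

namespace Pool.Agent.Eng.H34

open Pool.Agent.Eng Finset

section
variable (F K : Type) [Field F] [Finite F] [Field K] [Algebra F K] [FiniteDimensional F K]

/-- the powers of the Frobenius -/
noncomputable def fr (i : ℕ) : K ≃ₐ[F] K := by
  haveI := Fintype.ofFinite F
  exact FiniteField.frobeniusAlgEquivOfAlgebraic F K ^ i

lemma fr_apply (i : ℕ) (x : K) : fr F K i x = x ^ (Nat.card F ^ i) := by
  letI := Fintype.ofFinite F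
  have h := FiniteField.coe_frobeniusAlgEquivOfAlgebraic_iterate F K i
  have h2 := congrFun h x
  have h3 : fr F K i x = (⇑(FiniteField.frobeniusAlgEquivOfAlgebraic F K))^[i] x :=
    congrFun (AlgEquiv.coe_pow (FiniteField.frobeniusAlgEquivOfAlgebraic F K) i) x
  have h4 : Nat.card F = Fintype.card F := Nat.card_eq_fintype_card
  rw [h4]
  exact h3.trans h2

lemma fr_add (i j : ℕ) (x : K) : fr F K i (fr F K j x) = fr F K (i + j) x := by
  rw [fr, fr, fr, pow_add]
  rfl

lemma fr_zero (x : K) : fr F K 0 x = x := by
  rw [fr, pow_zero]; rfl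

lemma fr_full (x : K) : fr F K (Module.finrank F K) x = x := by
  have : Finite K := Module.finite_of_finite F
  letI : Fintype F := Fintype.ofFinite F
  rw [fr]
  have h := FiniteField.orderOf_frobeniusAlgEquivOfAlgebraic F K
  have h2 := pow_orderOf_eq_one (FiniteField.frobeniusAlgEquivOfAlgebraic F K)
  rw [h] at h2
  have h3 := DFunLike.congr_fun h2 x
  exact h3

lemma mem_range_of_fixed (y : K) (hy : fr F K 1 y = y) : ∃ a : F, algebraMap F K a = y := by
  letI := Fintype.ofFinite F
  have : Finite K := Module.finite_of_finite F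
  have hall : ∀ f : K ≃ₐ[F] K, f y = y := by
    intro f
    obtain ⟨n, hn⟩ := (FiniteField.bijective_frobeniusAlgEquivOfAlgebraic_pow F K).2 f
    have h1 : ∀ n : ℕ, fr F K n y = y := by
      intro n
      induction n with
      | zero => exact fr_zero F K y
      | succ n ih =>
        rw [← fr_add F K n 1, hy]; exact ih
    have h2 : (FiniteField.frobeniusAlgEquivOfAlgebraic F K ^ (n : ℕ)) y = y := h1 n
    have hn' : FiniteField.frobeniusAlgEquivOfAlgebraic F K ^ (n : ℕ) = f := hn
    exact (DFunLike.congr_fun hn' y).symm.trans h2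
  have := (IsGalois.mem_range_algebraMap_iff_fixed (F := F) (E := K) y).2 hall
  exact this

lemma trace_fr (x : K) : algebraMap F K (Algebra.trace F K x) =
    ∑ i ∈ range (Module.finrank F K), fr F K i x := by
  have : Finite K := Module.finite_of_finite F
  rw [FiniteField.algebraMap_trace_eq_sum_pow]
  exact sum_congr rfl fun i _ => (fr_apply F K i x).symm

/-- the standard sum -/
noncomputable def ss (m : ℕ) (x : K) : K := ∑ i ∈ range m, fr F K i (x * fr F K m x)

lemma ss_eq (m : ℕ) (x : K) :
    ∑ i ∈ range m, (x ^ (1 + Nat.card F ^ m)) ^ (Nat.card F ^ i) = ss F K m x := by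
  unfold ss
  refine sum_congr rfl fun i _ => ?_
  rw [fr_apply, fr_apply, pow_add, pow_one]

variable {F K}

lemma fr_2m {m : ℕ} (h : Module.finrank F K = 2 * m) (x : K) :
    fr F K m (fr F K m x) = x := by
  rw [fr_add, ← two_mul, ← h]; exact fr_full F K x

lemma ss_mem {m : ℕ} (h : Module.finrank F K = 2 * m) (x : K) :
    ∃ a : F, algebraMap F K a = ss F K m x := by
  apply mem_range_of_fixed
  unfold ss
  set t := x * fr F K m x with ht
  have h1 : fr F K m t = t := by
    rw [ht, map_mul, fr_2m h]; ring
  rw [map_sum]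
  have h2 : ∀ i, fr F K 1 (fr F K i t) = fr F K (i + 1) t := by
    intro i; rw [fr_add, add_comm]
  simp_rw [h2]
  have h3 := sum_range_succ (fun i => fr F K i t) m
  have h4 := sum_range_succ' (fun i => fr F K i t) m
  rw [h3, h1, fr_zero] at h4
  exact (add_right_cancel h4).symm

lemma ss_add {m : ℕ} (h : Module.finrank F K = 2 * m) (x y : K) :
    ss F K m (x + y) = ss F K m x + ss F K m y +
      algebraMap F K (Algebra.trace F K (x * fr F K m y)) := by
  rw [trace_fr, h, two_mul, sum_range_add]
  have h1 : ∀ i, fr F K (m + i) (x * fr F K m y) = fr F K i (fr F K m x * y) := by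
    intro i
    rw [← fr_add, fr_add, add_comm m i, ← fr_add, map_mul, fr_2m h]
  simp_rw [h1]
  unfold ss
  rw [← sum_add_distrib, ← sum_add_distrib, ← sum_add_distrib]
  refine sum_congr rfl fun i _ => ?_
  rw [← map_add, ← map_add, ← map_add]
  congr 1
  rw [map_add]; ring

lemma ss_smul {m : ℕ} (a : F) (x : K) :
    ss F K m (a • x) = algebraMap F K (a * a) * ss F K m x := by
  unfold ss
  rw [mul_sum]
  refine sum_congr rfl fun i _ => ?_
  rw [map_smul]
  have : a • x * a • (fr F K m x) = (a * a) • (x * fr F K m x) := by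
    rw [smul_mul_smul_comm]
  rw [this, map_smul, Algebra.smul_def]

end

/-- OSTD -/
theorem ostd : OstdStmt := by
  intro F K _ _ _ _ _ m hm hfr
  have hinj : Function.Injective (algebraMap F K) := (algebraMap F K).injective
  constructor
  · choose q hq using fun x : K => ss_mem (F := F) (K := K) hfr x
    let B : LinearMap.BilinMap F K F :=
      (Algebra.traceForm F K).compl₂ (fr F K m).toLinearMap
    refine ⟨{ toFun := q
              toFun_smul := ?_
              exists_companion' := ⟨B, ?_⟩ }, ?_⟩
    · intro a x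
      apply hinj
      rw [hq, ss_smul, smul_eq_mul, map_mul, map_mul, map_mul, hq]
    · intro x y
      apply hinj
      rw [hq, ss_add hfr, map_add, map_add, hq, hq]
      rfl
    · intro x
      rw [ss_eq]
      exact hq x
  · intro Q hQ u hu
    have hpol : ∀ v : K, QuadraticMap.polar Q u v = Algebra.trace F K (u * fr F K m v) := by
      intro v
      apply hinj
      have e1 := hQ (u + v)
      have e2 := hQ u
      have e3 := hQ v
      rw [ss_eq] at e1 e2 e3
      rw [QuadraticMap.polar, map_sub, map_sub, e1, e2, e3, ss_add hfr]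
      ring
    have hnd := (traceForm_nondegenerate F K).1 u
    apply hnd
    intro w
    rw [Algebra.traceForm_apply]
    have h1 := hu (fr F K m w)
    rw [hpol, fr_2m hfr] at h1
    exact h1

end Pool.Agent.Eng.H34
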